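import Pool.Agent.Y627.PT.Stm
import Pool.Agent.TH693.QQ.T5

/-!
# Linear independence of sections over `F_2(X)` (job PT627-LIN, by helper517)
-/

set_option autoImplicit false

namespace Pool.Agent.Y517.PT

open PowerSeries Pool.Agent.TH693.PP Pool.Agent.TH693.QQ Pool.Agent.H397R2.PP Pool.Agent.Y627.PT

section abs

variable {k L M : Type} [Field k] [Field L] [Algebra k L] [Field M] [Algebra k M]

/-- the map of the algebras generated by one element -/
noncomputable def adj (e : L →ₐ[k] M) (z : L) :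
    Algebra.adjoin k {z} →ₐ[k] Algebra.adjoin k {e z} :=
  (e.comp (Algebra.adjoin k {z}).val).codRestrict (Algebra.adjoin k {e z}) (by
    intro x
    have h : (Algebra.adjoin k {z}).map e = Algebra.adjoin k {e z} := by
      rw [AlgHom.map_adjoin, Set.image_singleton]
    rw [← h]
    exact Subalgebra.mem_map.2 ⟨x.1, x.2, rfl⟩)

lemma adj_apply (e : L →ₐ[k] M) (z : L) (x : Algebra.adjoin k {z}) : (adj e z x : M) = e x := rfl

lemma adj_inj (e : L →ₐ[k] M) (z : L) : Function.Injective (adj e z) := by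
  intro x y h
  exact Subtype.ext (e.toRingHom.injective (congrArg Subtype.val h))

lemma adj_surj (e : L →ₐ[k] M) (z : L) : Function.Surjective (adj e z) := by
  intro y
  have h : (Algebra.adjoin k {z}).map e = Algebra.adjoin k {e z} := by
    rw [AlgHom.map_adjoin, Set.image_singleton]
  have hy : (y : M) ∈ (Algebra.adjoin k {z}).map e := by rw [h]; exact y.2
  obtain ⟨x, hx, hxy⟩ := Subalgebra.mem_map.1 hy
  exact ⟨⟨x, hx⟩, Subtype.ext hxy⟩

lemma cl_map (e : L →ₐ[k] M) {z y : L} (h : y ∈ QE2.cl k {z}) : e y ∈ QE2.cl k {e z} := by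
  rw [QE2.mem_cl] at h ⊢
  exact IsAlgebraic.ringHom_of_comp_eq (adj e z).toRingHom e.toRingHom h (adj_inj e z)
    (RingHom.ext fun x => rfl)

lemma cl_comap (e : L →ₐ[k] M) {z y : L} (h : e y ∈ QE2.cl k {e z}) : y ∈ QE2.cl k {z} := by
  rw [QE2.mem_cl] at h ⊢
  exact IsAlgebraic.of_ringHom_of_comp_eq (adj e z).toRingHom e.toRingHom h (adj_surj e z)
    e.toRingHom.injective (RingHom.ext fun x => rfl)

/-- the closure of one element as a subalgebra -/
noncomputable def Kc (k : Type) {M : Type} [Field k] [Field M] [Algebra k M] (d : M) :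
    Subalgebra (Algebra.adjoin k {d}) M :=
  Subalgebra.algebraicClosure (Algebra.adjoin k {d}) M

lemma mem_Kc {d y : M} : y ∈ Kc k d ↔ y ∈ QE2.cl k {d} := by
  rw [QE2.mem_cl, Kc, Subalgebra.mem_algebraicClosure]

lemma eq_zero_of_root {d xi : M} (hxi : xi ∉ QE2.cl k {d}) (Q : Polynomial M)
    (hQ : ∀ n, Q.coeff n ∈ QE2.cl k {d}) (h : Q.eval xi = 0) : Q = 0 := by
  by_contra hne
  apply hxi
  rw [QE2.mem_cl]
  have hlift : Q ∈ Polynomial.lifts (algebraMap (Kc k d) M) := by
    rw [Polynomial.lifts_iff_coeff_lifts]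
    intro n
    exact ⟨⟨Q.coeff n, mem_Kc.2 (hQ n)⟩, rfl⟩
  obtain ⟨G, hG⟩ := (Polynomial.mem_lifts Q).1 hlift
  have h1 : IsAlgebraic (Kc k d) xi := by
    refine ⟨G, ?_, ?_⟩
    · rintro rfl
      rw [Polynomial.map_zero] at hG
      exact hne hG.symm
    · rw [← hG, Polynomial.eval_map] at h
      exact h
  have h2 : Algebra.IsAlgebraic (Algebra.adjoin k {d}) (Kc k d) := by
    constructor
    intro x
    have h3 : IsAlgebraic (Algebra.adjoin k {d}) (x : M) :=
      (Subalgebra.mem_algebraicClosure _ _).1 x.2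
    exact (isAlgebraic_algebraMap_iff (A := M) (R := Algebra.adjoin k {d}) (S := Kc k d)
      Subtype.val_injective).1 h3
  exact h1.restrictScalars (Algebra.adjoin k {d})

end abs

section conc

/-- an algebraically closed field containing `Lk` -/
abbrev Om : Type := AlgebraicClosure Lk

noncomputable def e : Lk →ₐ[ZMod 2] Om := IsScalarTower.toAlgHom (ZMod 2) Lk Om

lemma X_notMem (hDb : ¬ AlgX Db) : T5.jj X ∉ QE2.cl (ZMod 2) {T5.jj Db} := by
  intro h
  have hd : T5.jj Db ∉ QE2.cl (ZMod 2) {T5.jj X} := fun h => hDb (T5.algX_of_mem h)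
  have hx0 : T5.jj X ≠ 0 := by
    rw [Ne, map_eq_zero_iff T5.jj T5.jj_inj]
    exact PowerSeries.X_ne_zero
  obtain ⟨n, hn, hn1⟩ := QE2.root_of_unity hx0
    (QE2.exch hd (QE2.self_mem (Set.mem_singleton _)) h)
  have h1 : (X : S) ^ n = 1 := by
    apply T5.jj_inj
    rw [map_pow, map_one]
    exact hn1
  have h2 := congrArg (constantCoeff) h1
  rw [map_pow, constantCoeff_X, map_one, zero_pow hn.ne'] at h2
  exact zero_ne_one h2

lemma eval_io (xi : Om) (hxi : xi ^ 24 = e (T5.jj X)) (f : F) :
    e (T5.jj (f : S)) = (Polynomial.expand Om 24 (f.map (algebraMap (ZMod 2) Om))).eval xi := by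
  rw [Polynomial.expand_eval, hxi]
  have h : ((e : Lk →+* Om).comp ((T5.jj : S →+* Lk).comp io)) =
      (Polynomial.eval₂RingHom (algebraMap (ZMod 2) Om) (e (T5.jj X))) := by
    apply Polynomial.ringHom_ext
    · intro a
      rw [RingHom.comp_apply, RingHom.comp_apply, QE2.io_C, Polynomial.coe_eval₂RingHom,
        Polynomial.eval₂_C]
      change e (T5.jj (algebraMap (ZMod 2) S a)) = _
      rw [T5.jj.commutes, e.commutes]
    · rw [RingHom.comp_apply, RingHom.comp_apply, QE2.io_X, Polynomial.coe_eval₂RingHom,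
        Polynomial.eval₂_X]
      rfl
  have h1 := RingHom.congr_fun h f
  rw [Polynomial.coe_eval₂RingHom] at h1
  rw [Polynomial.eval_map]
  exact h1

lemma proj_coeff (M r : ℕ) (f : S) (n : ℕ) :
    coeff n (proj M r f) = if n % M = r % M then coeff n f else 0 := by
  rw [proj, coeff_mk]

end conc

theorem lin : S_LIN := by
  classical
  intro hAL hDb J _ t r M hM hodd h24 hr a b hrel j0 hj0
  obtain ⟨xi, hxi⟩ : ∃ xi : Om, xi ^ 24 = e (T5.jj X) :=
    IsAlgClosed.exists_pow_nat_eq (e (T5.jj X)) (by norm_num)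
  set d : Om := e (T5.jj Db) with hd
  have hejj : Function.Injective (fun s : S => e (T5.jj s)) := by
    intro s s' h
    exact T5.jj_inj (e.toRingHom.injective h)
  have hX : e (T5.jj X) ∉ QE2.cl (ZMod 2) {d} := fun h => X_notMem hDb (cl_comap e h)
  have hxiK : xi ∉ QE2.cl (ZMod 2) {d} := fun h => hX (hxi ▸ QE2.pow_mem' h 24)
  have hxi0 : xi ≠ 0 := by
    rintro rfl
    rw [zero_pow (by norm_num)] at hxi
    have h1 : T5.jj X = 0 := (map_eq_zero e.toRingHom).1 hxi.symm
    rw [map_eq_zero_iff T5.jj T5.jj_inj] at h1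
    exact PowerSeries.X_ne_zero h1
  set Pj : J → S := fun j => proj M (r j) (P ^ t j) with hPj
  set de : J → Om := fun j => e (T5.jj (Pj j)) / xi ^ t j with hde
  have hdeK : ∀ j, de j ∈ QE2.cl (ZMod 2) {d} := by
    intro j
    apply QE2.of_pow_mem (n := 24) (by norm_num)
    have h1 := cl_map e (T5.mem_of_AL (hAL (t j) M (r j) (hodd j) hM))
    have h2 : de j ^ 24 = e (algebraMap Sk Lk (ik (proj M (r j) (P ^ t j))) ^ 24 /
        algebraMap Sk Lk X ^ t j) := by
      rw [map_div₀, map_pow, map_pow, hde]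
      simp only
      rw [div_pow, ← pow_mul, mul_comm (t j) 24, pow_mul, hxi, T5.jj_X]
      rfl
    rw [h2]
    exact h1
  have hdex : ∀ j, de j * xi ^ t j = e (T5.jj (Pj j)) := by
    intro j
    rw [hde]
    exact div_mul_cancel₀ _ (pow_ne_zero _ hxi0)
  -- the polynomial
  set q : F → Polynomial Om := fun f => Polynomial.expand Om 24 (f.map (algebraMap (ZMod 2) Om))
    with hq
  set Q : Polynomial Om :=
    ∑ j, Polynomial.C (de j) * (Polynomial.X ^ t j * q (a j)) + q b with hQ
  have hqK : ∀ (f : F) (n : ℕ), (q f).coeff n ∈ Kc (ZMod 2) d := by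
    intro f n
    rw [hq]
    simp only
    rw [Polynomial.coeff_expand (by norm_num)]
    split_ifs with h
    · rw [Polynomial.coeff_map]
      have h1 : algebraMap (ZMod 2) Om (f.coeff (n / 24)) =
        algebraMap (Algebra.adjoin (ZMod 2) {d}) Om
          (algebraMap (ZMod 2) (Algebra.adjoin (ZMod 2) {d}) (f.coeff (n / 24))) := rfl
      rw [h1]
      exact Subalgebra.algebraMap_mem _ _
    · exact Subalgebra.zero_mem _
  have hQK : ∀ n, Q.coeff n ∈ QE2.cl (ZMod 2) {d} := by
    intro n
    rw [← mem_Kc, hQ, Polynomial.coeff_add, Polynomial.finsetSum_coeff]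
    refine Subalgebra.add_mem _ (Subalgebra.sum_mem _ fun j _ => ?_) (hqK b n)
    rw [Polynomial.coeff_C_mul, Polynomial.coeff_X_pow_mul']
    refine Subalgebra.mul_mem _ (mem_Kc.2 (hdeK j)) ?_
    split_ifs
    · exact hqK _ _
    · exact Subalgebra.zero_mem _
  have hQ0 : Q = 0 := by
    apply eq_zero_of_root hxiK Q hQK
    rw [hQ, Polynomial.eval_add, Polynomial.eval_finsetSum]
    have h1 : ∀ j, (Polynomial.C (de j) * (Polynomial.X ^ t j * q (a j))).eval xi =
        e (T5.jj ((a j : S) * Pj j)) := by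
      intro j
      rw [Polynomial.eval_mul, Polynomial.eval_mul, Polynomial.eval_C, Polynomial.eval_pow,
        Polynomial.eval_X, ← mul_assoc, hdex, map_mul, map_mul, mul_comm, eval_io xi hxi (a j)]
    rw [Finset.sum_congr rfl (fun j _ => h1 j), ← eval_io xi hxi b, ← map_sum, ← map_sum,
      ← map_add, ← map_add, hrel, map_zero, map_zero]
  -- the coefficients
  apply Polynomial.ext
  intro m
  rw [Polynomial.coeff_zero]
  have hc := congrArg (fun R : Polynomial Om => R.coeff (24 * m + t j0)) hQ0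
  simp only [Polynomial.coeff_zero] at hc
  rw [hQ, Polynomial.coeff_add, Polynomial.finsetSum_coeff] at hc
  have hb0 : (q b).coeff (24 * m + t j0) = 0 := by
    rw [hq]
    simp only
    rw [Polynomial.coeff_expand (by norm_num), if_neg]
    intro h
    have h1 : 24 ∣ t j0 := (Nat.dvd_add_right (Dvd.intro m rfl)).1 h
    have h2 := (hodd j0)
    rw [← Nat.not_even_iff_odd] at h2
    exact h2 ((even_iff_two_dvd).2 (dvd_trans (by norm_num) h1))
  have hterm : ∀ j, (Polynomial.C (de j) * (Polynomial.X ^ t j * q (a j))).coeff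
      (24 * m + t j0) = if t j = t j0 then de j * algebraMap (ZMod 2) Om ((a j).coeff m)
        else 0 := by
    intro j
    rw [Polynomial.coeff_C_mul, Polynomial.coeff_X_pow_mul']
    split_ifs with h1 h2 h2
    · rw [h2, Nat.add_sub_cancel, hq]
      simp only
      rw [mul_comm 24 m, Polynomial.coeff_expand_mul (by norm_num), Polynomial.coeff_map]
    · rw [hq]
      simp only
      rw [Polynomial.coeff_expand (by norm_num), if_neg, mul_zero]
      intro h3
      apply h2
      apply h24
      obtain ⟨c, hc⟩ := h3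
      omega
    · exact absurd (by omega) h1
    · rw [mul_zero]
  rw [hb0, add_zero, Finset.sum_congr rfl (fun j _ => hterm j)] at hc
  have hS : ∑ j, (if t j = t j0 then (C ((a j).coeff m) : S) * Pj j else 0) = 0 := by
    apply hejj
    simp only
    rw [map_sum, map_sum, map_zero, map_zero]
    have h1 : ∀ j, e (T5.jj (if t j = t j0 then (C ((a j).coeff m) : S) * Pj j else 0)) =
        (if t j = t j0 then de j * algebraMap (ZMod 2) Om ((a j).coeff m) else 0) *
          xi ^ t j0 := by
      intro j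
      split_ifs with h2
      · rw [map_mul, map_mul, ← hdex, h2]
        have h3 : e (T5.jj (C ((a j).coeff m) : S)) =
            algebraMap (ZMod 2) Om ((a j).coeff m) := by
          have h4 : (C ((a j).coeff m) : S) = algebraMap (ZMod 2) S ((a j).coeff m) := rfl
          rw [h4, T5.jj.commutes, e.commutes]
        rw [h3]
        ring
      · rw [map_zero, map_zero, zero_mul]
    rw [Finset.sum_congr rfl (fun j _ => h1 j), ← Finset.sum_mul, hc, zero_mul]
  obtain ⟨n, hn⟩ : ∃ n, coeff n (Pj j0) ≠ 0 := by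
    by_contra hcon
    push Not at hcon
    exact hj0 (PowerSeries.ext (fun n => by rw [map_zero]; exact hcon n))
  have hnr : n % M = r j0 % M := by
    by_contra h
    apply hn
    rw [hPj]
    simp only
    rw [proj_coeff, if_neg h]
  have h5 := congrArg (coeff n) hS
  rw [map_sum, map_zero, Finset.sum_eq_single j0] at h5
  · rw [if_pos rfl, coeff_C_mul] at h5
    exact (mul_eq_zero.1 h5).resolve_right hn
  · intro j _ hjj
    split_ifs with h6
    · rw [coeff_C_mul, hPj]
      simp only
      rw [proj_coeff, if_neg, mul_zero]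
      intro h7
      exact hjj (hr j j0 h6 (by rw [← h7, hnr]))
    · rw [map_zero]
  · intro h
    exact absurd (Finset.mem_univ _) h

end Pool.Agent.Y517.PT
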