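import Pool.Agent.Y627.PT.Stm2
import Pool.Agent.Y517.PT.Lin

/-!
# A linear relation splits according to the powers of `X ^ (1 / 24)` (job of helper627, by helper517)
-/

set_option autoImplicit false

namespace Pool.Agent.Y517.PT

open PowerSeries Pool.Agent.TH693.PP Pool.Agent.TH693.QQ Pool.Agent.H397R2.PP Pool.Agent.Y627.PT

lemma eval_io' (xi : Om) (hxi : xi ^ 24 = e (T5.jj X)) (f : F) :
    e (T5.jj (io f)) = (Polynomial.expand Om 24 (f.map (algebraMap (ZMod 2) Om))).eval xi :=
  eval_io xi hxi f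

lemma eval_monomial (xi : Om) (hxi : xi ^ 24 = e (T5.jj X)) (n : ℕ) (c : ZMod 2) :
    e (T5.jj (io (Polynomial.monomial n c))) = algebraMap (ZMod 2) Om c * xi ^ (24 * n) := by
  rw [eval_io' xi hxi, Polynomial.expand_eval, Polynomial.map_monomial, Polynomial.eval_monomial,
    ← pow_mul]

theorem lin0 : S_LIN0 := by
  classical
  intro hDb J _ g ex hAL A b hrel N
  obtain ⟨xi, hxi⟩ : ∃ xi : Om, xi ^ 24 = e (T5.jj X) :=
    IsAlgClosed.exists_pow_nat_eq (e (T5.jj X)) (by norm_num)
  set d : Om := e (T5.jj Db) with hd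
  have hejj : Function.Injective (fun s : S => e (T5.jj s)) := by
    intro s s' h
    exact T5.jj_inj (e.toRingHom.injective h)
  have hX : e (T5.jj X) ∉ QE2.cl (ZMod 2) {d} := fun h => X_notMem hDb (cl_comap e h)
  have hxiK : xi ∉ QE2.cl (ZMod 2) {d} := fun h => hX (hxi ▸ QE2.pow_mem' h 24)
  have hxi0 : xi ≠ 0 := by
    rintro rfl
    rw [zero_pow (by norm_num)] at hxi
    have h1 : T5.jj X = 0 := (map_eq_zero e.toRingHom).1 hxi.symm
    rw [map_eq_zero_iff T5.jj T5.jj_inj] at h1
    exact PowerSeries.X_ne_zero h1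
  set de : J → Om := fun j => e (T5.jj (g j)) / xi ^ ex j with hde
  have hdeK : ∀ j, de j ∈ QE2.cl (ZMod 2) {d} := by
    intro j
    apply QE2.of_pow_mem (n := 24) (by norm_num)
    have h1 := cl_map e (T5.mem_of_AL (hAL j))
    have h2 : de j ^ 24 = e (algebraMap Sk Lk (ik (g j)) ^ 24 /
        algebraMap Sk Lk X ^ ex j) := by
      rw [map_div₀, map_pow, map_pow, hde]
      simp only
      rw [div_pow, ← pow_mul, mul_comm (ex j) 24, pow_mul, hxi, T5.jj_X]
      rfl
    rw [h2]
    exact h1
  have hdex : ∀ j, de j * xi ^ ex j = e (T5.jj (g j)) := by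
    intro j
    rw [hde]
    exact div_mul_cancel₀ _ (pow_ne_zero _ hxi0)
  set q : F → Polynomial Om := fun f => Polynomial.expand Om 24 (f.map (algebraMap (ZMod 2) Om))
    with hq
  set Q : Polynomial Om :=
    ∑ j, Polynomial.C (de j) * (Polynomial.X ^ ex j * q (A j)) + q b with hQ
  have hqK : ∀ (f : F) (n : ℕ), (q f).coeff n ∈ Kc (ZMod 2) d := by
    intro f n
    rw [hq]
    simp only
    rw [Polynomial.coeff_expand (by norm_num)]
    split_ifs with h
    · rw [Polynomial.coeff_map]
      have h1 : algebraMap (ZMod 2) Om (f.coeff (n / 24)) =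
        algebraMap (Algebra.adjoin (ZMod 2) {d}) Om
          (algebraMap (ZMod 2) (Algebra.adjoin (ZMod 2) {d}) (f.coeff (n / 24))) := rfl
      rw [h1]
      exact Subalgebra.algebraMap_mem _ _
    · exact Subalgebra.zero_mem _
  have hQK : ∀ n, Q.coeff n ∈ QE2.cl (ZMod 2) {d} := by
    intro n
    rw [← mem_Kc, hQ, Polynomial.coeff_add, Polynomial.finsetSum_coeff]
    refine Subalgebra.add_mem _ (Subalgebra.sum_mem _ fun j _ => ?_) (hqK b n)
    rw [Polynomial.coeff_C_mul, Polynomial.coeff_X_pow_mul']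
    refine Subalgebra.mul_mem _ (mem_Kc.2 (hdeK j)) ?_
    split_ifs
    · exact hqK _ _
    · exact Subalgebra.zero_mem _
  have hQ0 : Q = 0 := by
    apply eq_zero_of_root hxiK Q hQK
    rw [hQ, Polynomial.eval_add, Polynomial.eval_finsetSum]
    have h1 : ∀ j, (Polynomial.C (de j) * (Polynomial.X ^ ex j * q (A j))).eval xi =
        e (T5.jj (io (A j) * g j)) := by
      intro j
      rw [Polynomial.eval_mul, Polynomial.eval_mul, Polynomial.eval_C, Polynomial.eval_pow,
        Polynomial.eval_X, ← mul_assoc, hdex, map_mul, map_mul, mul_comm, eval_io' xi hxi (A j)]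
    rw [Finset.sum_congr rfl (fun j _ => h1 j), ← eval_io' xi hxi b, ← map_sum, ← map_sum,
      ← map_add, ← map_add, hrel, map_zero, map_zero]
  have hc := congrArg (fun R : Polynomial Om => R.coeff N) hQ0
  simp only [Polynomial.coeff_zero] at hc
  rw [hQ, Polynomial.coeff_add, Polynomial.finsetSum_coeff] at hc
  apply hejj
  simp only
  rw [map_add, map_add, map_sum, map_sum, map_zero, map_zero]
  have h1 : ∀ j, e (T5.jj (if ex j ≤ N ∧ 24 ∣ N - ex j then
        io (Polynomial.monomial ((N - ex j) / 24) ((A j).coeff ((N - ex j) / 24))) * g j else 0)) =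
      (Polynomial.C (de j) * (Polynomial.X ^ ex j * q (A j))).coeff N * xi ^ N := by
    intro j
    rw [Polynomial.coeff_C_mul, Polynomial.coeff_X_pow_mul']
    by_cases h2 : ex j ≤ N
    · rw [if_pos h2, hq]
      simp only
      rw [Polynomial.coeff_expand (by norm_num)]
      by_cases h3 : 24 ∣ N - ex j
      · rw [if_pos ⟨h2, h3⟩, if_pos h3, map_mul, map_mul, eval_monomial xi hxi,
          Nat.mul_div_cancel' h3, ← hdex, Polynomial.coeff_map]
        have h4 : xi ^ N = xi ^ (N - ex j) * xi ^ ex j := by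
          rw [← pow_add, Nat.sub_add_cancel h2]
        rw [h4]
        ring
      · rw [if_neg (fun h => h3 h.2), if_neg h3, map_zero, map_zero, mul_zero, zero_mul]
    · rw [if_neg (fun h => h2 h.1), if_neg h2, map_zero, map_zero, mul_zero, zero_mul]
  have h2 : e (T5.jj (if 24 ∣ N then io (Polynomial.monomial (N / 24) (b.coeff (N / 24))) else 0)) =
      (q b).coeff N * xi ^ N := by
    rw [hq]
    simp only
    rw [Polynomial.coeff_expand (by norm_num)]
    by_cases h3 : 24 ∣ N
    · rw [if_pos h3, if_pos h3, eval_monomial xi hxi, Nat.mul_div_cancel' h3,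
        Polynomial.coeff_map]
    · rw [if_neg h3, if_neg h3, map_zero, map_zero, zero_mul]
  rw [Finset.sum_congr rfl (fun j _ => h1 j), h2, ← Finset.sum_mul, ← add_mul, hc, zero_mul]

end Pool.Agent.Y517.PT
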